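import Pool.Agent.Helper26.RP.Goals

/-! Packet STR of MP_105b7b_pr (helper26). -/

set_option autoImplicit false

namespace RP.PkSTR

theorem slope {σ a b : ℝ} (ha : 0 < a) (h : |b| ≤ σ * a) : ∃ m, b = m * a ∧ -σ ≤ m ∧ m ≤ σ := by
  refine ⟨b / a, (div_mul_cancel₀ b ha.ne').symm, ?_, ?_⟩
  · rw [le_div_iff₀ ha]
    have := (abs_le.mp h).1
    linarith
  · rw [div_le_iff₀ ha]
    exact (abs_le.mp h).2

theorem keyA {σ v1x v1y s1x s1y v2x v2y s2x s2y dx dy ux uy : ℝ} (hσ : 0 ≤ σ)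
    (h1 : v1x < s1x) (h2 : v2x < s2x) (hs2 : |s2y - v2y| ≤ σ * (s2x - v2x))
    (hd : s1x < dx) (hu : s2x < ux) (hd' : σ * (dx - s1x) < s1y - dy)
    (hu' : σ * (ux - s2x) < uy - s2y) (hle : s1x ≤ s2x)
    (ho : (s2x - v2x) * (s1y - v2y) - (s2y - v2y) * (s1x - v2x) < 0)
    (t u : ℝ) (ht : 0 ≤ t) (hu0 : 0 ≤ u) (hu1 : u ≤ 1) :
    ¬ (s1x + t * (dx - s1x) = s2x + u * (ux - s2x) ∧
        s1y + t * (dy - s1y) = s2y + u * (uy - s2y)) ∧
    ¬ (s1x + t * (dx - s1x) = v2x + u * (s2x - v2x) ∧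
        s1y + t * (dy - s1y) = v2y + u * (s2y - v2y)) ∧
    ¬ (s2x + t * (ux - s2x) = v1x + u * (s1x - v1x) ∧
        s2y + t * (uy - s2y) = v1y + u * (s1y - v1y)) := by
  obtain ⟨m, hm, hm1, hm2⟩ := slope (sub_pos.mpr h2) hs2
  have hL : s1y < s2y + m * (s1x - s2x) := by
    have h3 : (s2x - v2x) * (s1y - v2y) - (s2y - v2y) * (s1x - v2x) =
      (s2x - v2x) * ((s1y - v2y) - m * (s1x - v2x)) := by rw [hm]; ring
    rw [h3] at ho
    have h4 : (s1y - v2y) - m * (s1x - v2x) < 0 := by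
      by_contra hc
      push Not at hc
      have := mul_nonneg (sub_pos.mpr h2).le hc
      linarith
    have h5 : s2y = v2y + m * (s2x - v2x) := by linarith
    rw [h5]
    linarith
  have hpd : t * (σ * (dx - s1x)) ≤ t * (s1y - dy) := mul_le_mul_of_nonneg_left hd'.le ht
  refine ⟨?_, ?_, ?_⟩
  · rintro ⟨e1, e2⟩
    have hqu : u * (σ * (ux - s2x)) ≤ u * (uy - s2y) := mul_le_mul_of_nonneg_left hu'.le hu0
    have ha : 0 ≤ u * (ux - s2x) := mul_nonneg hu0 (sub_pos.mpr hu).le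
    -- m * (s1x - s2x) ≤ σ * (s2x - s1x)
    have hb : m * (s1x - s2x) ≤ σ * (s2x - s1x) := by
      have := mul_nonneg (by linarith : 0 ≤ m + σ) (by linarith : 0 ≤ s2x - s1x)
      linarith
    have hc : σ * (s2x - s1x) ≤ σ * (t * (dx - s1x)) :=
      mul_le_mul_of_nonneg_left (by linarith) hσ
    have hd2 : 0 ≤ σ * (u * (ux - s2x)) := mul_nonneg hσ ha
    linarith
  · rintro ⟨e1, e2⟩
    have ha : 0 ≤ t * (dx - s1x) := mul_nonneg ht (sub_pos.mpr hd).le
    have hb : 0 ≤ (m + σ) * (t * (dx - s1x)) := mul_nonneg (by linarith) ha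
    have h5 : v2y = s2y - m * (s2x - v2x) := by linarith
    have h6 : v2y + u * (s2y - v2y) = s2y + m * (s1x + t * (dx - s1x) - s2x) := by
      rw [e1, hm, h5]; ring
    linarith
  · rintro ⟨e1, e2⟩
    have ha : 0 ≤ t * (ux - s2x) := mul_nonneg ht (sub_pos.mpr hu).le
    have hb : 0 ≤ (1 - u) * (s1x - v1x) := mul_nonneg (by linarith) (sub_pos.mpr h1).le
    have hc : t * (ux - s2x) = 0 := by linarith
    have hd2 : (1 - u) * (s1x - v1x) = 0 := by linarith
    have ht0 : t = 0 := by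
      rcases mul_eq_zero.mp hc with h | h
      · exact h
      · linarith
    have hu1' : u = 1 := by
      rcases mul_eq_zero.mp hd2 with h | h
      · linarith
      · linarith
    subst ht0
    subst hu1'
    have e3 : s2x = s1x := by linarith
    have e4 : s2y = s1y := by linarith
    rw [e3, e4] at hL
    linarith

theorem disj_of {a b c d : RP.E}
    (h : ∀ t u : ℝ, 0 ≤ t → 0 ≤ u → u ≤ 1 →
      ¬ (a.1 + t * (b.1 - a.1) = c.1 + u * (d.1 - c.1) ∧
        a.2 + t * (b.2 - a.2) = c.2 + u * (d.2 - c.2))) :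
    Disjoint (segment ℝ a b) (segment ℝ c d) := by
  rw [Set.disjoint_left]
  intro p hp hq
  rw [segment_eq_image'] at hp hq
  obtain ⟨t, ht, rfl⟩ := hp
  obtain ⟨u, hu, he⟩ := hq
  refine h t u ht.1 hu.1 hu.2 ⟨?_, ?_⟩
  · have := congrArg Prod.fst he
    simpa using this.symm
  · have := congrArg Prod.snd he
    simpa using this.symm

theorem str : G_STR := by
  intro σ v1 s1 v2 s2 gd gu hσ h1 h2 hs1 hs2 hd hu hd' hu' hlow
  rcases hlow with ⟨hle, ho⟩ | ⟨hle, ho⟩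
  · have key := keyA (v1y := v1.2) hσ h1 h2 hs2 hd hu hd' hu' hle ho
    exact ⟨disj_of fun t u a b c => (key t u a b c).1,
      disj_of fun t u a b c => (key t u a b c).2.1,
      disj_of fun t u a b c => (key t u a b c).2.2⟩
  · have hs1' : |(-s1.2) - (-v1.2)| ≤ σ * (s1.1 - v1.1) := by
      have : (-s1.2) - (-v1.2) = -(s1.2 - v1.2) := by ring
      rw [this, abs_neg]
      exact hs1
    have ho' : (s1.1 - v1.1) * ((-s2.2) - (-v1.2)) - ((-s1.2) - (-v1.2)) * (s2.1 - v1.1) < 0 := by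
      unfold orient at ho
      linarith
    have key := keyA (v1y := -v2.2) (s1y := -s2.2) (v2y := -v1.2) (s2y := -s1.2)
      (dy := -gu.2) (uy := -gd.2) hσ h2 h1 hs1' hu hd (by linarith) (by linarith) hle ho'
    refine ⟨?_, ?_, ?_⟩
    · refine (disj_of fun t u a b c hh => ?_).symm
      refine (key t u a b c).1 ⟨hh.1, ?_⟩
      linarith [hh.2]
    · refine disj_of fun t u a b c hh => ?_
      refine (key t u a b c).2.2 ⟨hh.1, ?_⟩
      linarith [hh.2]
    · refine disj_of fun t u a b c hh => ?_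
      refine (key t u a b c).2.1 ⟨hh.1, ?_⟩
      linarith [hh.2]

end RP.PkSTR
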